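import Pool.Agent.H80.Spog4

open Pool.Agent.H80.ST Pool.Agent.H80.Spog

theorem Pool.Agent.Results.MP_ac8f1a_ag.SevenLines.result :
    ∃ (n : ℕ) (a : Fin n → Fin 3 → ℚ) (θ : Fin (3 + 1) → Fin 3 → S ℚ 3)
      (g : Fin (3 + 1) → S ℚ 3), (∀ h, a h ≠ 0) ∧ (Function.Injective fun h => hyp (a h)) ∧
      (∀ i, θ i ∈ D a) ∧ (∀ i, ∃ d, ∀ j, (θ i j).IsHomogeneous d) ∧
      (∀ i : Fin (3 + 1), (-1) ^ (i.val + 1) * ((Matrix.of θ).submatrix i.succAbove id).det =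
        g i * ∏ h, lin (a h)) ∧ HypH a g ∧ ¬ Shape a :=
  cex
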